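import Mathlib
import Pool.Agent.Helper11.CP.Main
import Pool.Agent.Helper11.CP.Meas

/-!
# Global but not local survival of the contact process at a common critical rate

The contact process with infection rate `lam` on a locally finite graph, started from a finite set
of infected vertices, is the pure-jump Markov process on finite sets of vertices in which every
infected vertex recovers at rate `1` and every healthy vertex becomes infected at rate `lam` times
the number of its infected neighbours.  It is built (file `Pool/Agent/Helper11/CP/ProcDef.lean`)
from its jump chain and from independent exponential holding times.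

We construct a locally finite connected graph whose critical rates for global survival and for
local survival are equal (and positive) and on which, at this common critical rate, the contact
process survives globally and dies out locally.
-/

set_option autoImplicit false

namespace Pool.Agent.Results.MP_2b201f_pr.GlobalNotLocalAtCriticality

open MeasureTheory Filter Pool.Agent.CP
open scoped ENNReal NNReal

section definitions

variable {V : Type} [DecidableEq V] (G : SimpleGraph V) [G.LocallyFinite]

/-- The finite set of neighbours of a vertex. -/
def nbrs (v : V) : Finset V := G.neighborFinset v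

/-- The law of the contact process on `G` with infection rate `lam` started from the finite set
`A₀` of infected vertices: the joint law of its jump chain (the sequence of successive sets of
infected vertices) and of the independent exponential variables of mean `1` which, divided by the
total jump rates, give the holding times. -/
noncomputable def contactLaw (lam : ℝ≥0) (A₀ : Finset V) :
    Measure ((ℕ → Finset V) × (ℕ → ℝ)) := law (nbrs G) lam A₀

/-- The set of infected vertices at time `t`. -/
def infected (lam : ℝ≥0) (ω : (ℕ → Finset V) × (ℕ → ℝ)) (t : ℝ) : Set V :=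
  config (nbrs G) lam ω t

/-- The event that there are infected vertices at all times. -/
def globalEvent (lam : ℝ≥0) : Set ((ℕ → Finset V) × (ℕ → ℝ)) :=
  {ω | ∀ t : ℝ, 0 ≤ t → (infected G lam ω t).Nonempty}

/-- The event that `o` is infected at arbitrarily large times. -/
def localEvent (lam : ℝ≥0) (o : V) : Set ((ℕ → Finset V) × (ℕ → ℝ)) :=
  {ω | ∀ s : ℝ, ∃ t : ℝ, s ≤ t ∧ o ∈ infected G lam ω t}

/-- Global survival of the contact process started from `{o}`. -/
def SurvivesGlobally (lam : ℝ≥0) (o : V) : Prop := 0 < contactLaw G lam {o} (globalEvent G lam)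

/-- Local survival of the contact process started from `{o}`. -/
def SurvivesLocally (lam : ℝ≥0) (o : V) : Prop := 0 < contactLaw G lam {o} (localEvent G lam o)

/-- The critical rate of global survival. -/
noncomputable def critGlob (o : V) : ℝ≥0∞ :=
  ⨅ (lam : ℝ≥0) (_ : 0 < lam ∧ SurvivesGlobally G lam o), (lam : ℝ≥0∞)

/-- The critical rate of local survival. -/
noncomputable def critLoc (o : V) : ℝ≥0∞ :=
  ⨅ (lam : ℝ≥0) (_ : 0 < lam ∧ SurvivesLocally G lam o), (lam : ℝ≥0∞)

end definitions

/-- There is a locally finite connected graph `G` on which the contact process is non-explosive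
for every rate (and the survival events are measurable up to null sets), such that the critical
rates of global and of local survival are both equal to one and the same positive number `lamc`,
for every starting vertex, and such that at the rate `lamc` the contact process started from any
vertex survives globally but dies out locally. -/
theorem result :
    ∃ (V : Type) (_ : DecidableEq V) (G : SimpleGraph V) (_ : G.LocallyFinite),
      G.Connected ∧
      (∀ (lam : ℝ≥0) (A₀ : Finset V), ∀ᵐ ω ∂(contactLaw G lam A₀),
        Tendsto (fun n => jumpTime (nbrs G) lam ω n) atTop atTop) ∧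
      (∀ (lam : ℝ≥0) (o : V),
        NullMeasurableSet (globalEvent G lam) (contactLaw G lam {o}) ∧
        NullMeasurableSet (localEvent G lam o) (contactLaw G lam {o})) ∧
      ∃ lamc : ℝ≥0, 0 < lamc ∧ ∀ o : V,
        critGlob G o = lamc ∧ critLoc G o = lamc ∧
        SurvivesGlobally G lamc o ∧ ¬ SurvivesLocally G lamc o := by
  obtain ⟨N, m, l, kap, H⟩ := exists_goodParams
  have hN : ∀ n, 1 ≤ N n := nbG_good_hN H
  have hexp : ∀ lam : ℝ≥0, NonExpl (nbP H) lam := fun lam => nonExpl_GG N m l H.hl hN lam
  have hsurv : ∀ lam : ℝ≥0, (1 / 100 : ℝ) ≤ lam → ∀ o : VV N m l,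
      0 < law (nbP H) lam {o} {ω | ∀ t : ℝ, 0 ≤ t → (config (nbP H) lam ω t).Nonempty} :=
    fun lam h o => GG_survive H h {o} (Finset.singleton_nonempty o)
  have hloc : ∀ lam : ℝ≥0, (1 / 100 : ℝ) < lam → ∀ o : VV N m l,
      0 < law (nbP H) lam {o} {ω | ∀ s : ℝ, ∃ t : ℝ, s ≤ t ∧ o ∈ config (nbP H) lam ω t} :=
    fun lam h o => GG_local_survive H h o {o} (Finset.singleton_nonempty o)
  have hcoe : ((1 / 100 : ℝ≥0) : ℝ) = 1 / 100 := by push_cast; ring
  refine ⟨VV N m l, inferInstance, GG N m l, locFin N m l H.hl hN,
    GG_connected N m l H.hl hN, fun lam A₀ => ae_tendsto_jumpTime (nbP H) lam (hexp lam) A₀,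
    fun lam o => ⟨nullMeasurableSet_glob (nbP H) lam (hexp lam) {o},
      nullMeasurableSet_loc (nbP H) lam (hexp lam) {o} o⟩,
    1 / 100, by positivity, fun o => ⟨?_, ?_, ?_, ?_⟩⟩
  · -- the critical rate of global survival
    apply le_antisymm
    · exact iInf₂_le (1 / 100 : ℝ≥0) ⟨by positivity, hsurv (1 / 100) hcoe.ge o⟩
    · refine le_iInf₂ (fun lam hlam => ?_)
      rw [ENNReal.coe_le_coe]
      by_contra hcon
      push Not at hcon
      have h1 : (lam : ℝ) < 1 / 100 := by rw [← hcoe]; exact_mod_cast hcon
      exact hlam.2.ne' (GG_extinct H hlam.1 h1 {o})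
  · -- the critical rate of local survival
    apply le_antisymm
    · apply ENNReal.le_of_forall_pos_le_add
      intro ε hε _
      have h1 : (1 / 100 : ℝ) < ((1 / 100 + ε : ℝ≥0) : ℝ) := by
        rw [NNReal.coe_add, hcoe]
        have : (0 : ℝ) < ε := by exact_mod_cast hε
        linarith
      rw [← ENNReal.coe_add]
      exact iInf₂_le (1 / 100 + ε : ℝ≥0) ⟨by positivity, hloc (1 / 100 + ε) h1 o⟩
    · refine le_iInf₂ (fun lam hlam => ?_)
      rw [ENNReal.coe_le_coe]
      by_contra hcon
      push Not at hcon
      have h1 : (lam : ℝ) < 1 / 100 := by rw [← hcoe]; exact_mod_cast hcon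
      exact hlam.2.ne' (GG_local_extinct_sub H hlam.1 h1 o {o})
  · exact hsurv (1 / 100) hcoe.ge o
  · intro h
    exact h.ne' (GG_local_extinct_crit H o {o})

end Pool.Agent.Results.MP_2b201f_pr.GlobalNotLocalAtCriticality

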